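import Mathlib

open Set Filter Topology

namespace Pool.Agent.Results.MP_8a822d_gt.NoEmbedding

/-- Baire-one functions: pointwise limits of sequences of continuous functions -/
def BaireOne {M : Type} [TopologicalSpace M] (f : M → ℝ) : Prop :=
  ∃ g : ℕ → M → ℝ, (∀ n, Continuous (g n)) ∧ ∀ x, Tendsto (fun n => g n x) atTop (𝓝 (f x))

/-- Rosenthal compacta -/
def Rosenthal (K : Type) [TopologicalSpace K] : Prop :=
  CompactSpace K ∧ ∃ (M : Type) (_ : TopologicalSpace M), PolishSpace M ∧
    ∃ e : K → M → ℝ, IsEmbedding e ∧ ∀ k, BaireOne (e k)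

section
variable (X Y : Type) [TopologicalSpace X] [TopologicalSpace Y]

/-- separately continuous functions -/
def S : Type := {s : X × Y → ℝ //
  (∀ y, Continuous fun x => s (x, y)) ∧ ∀ x, Continuous fun y => s (x, y)}

variable {X Y} in
omit [TopologicalSpace X] [TopologicalSpace Y] in
/-- the cross of a point -/
def cr (p : X × Y) : Set (X × Y) := {q | q.1 = p.1 ∨ q.2 = p.2}

/-- the cross-open topology -/
@[reducible] def cro : TopologicalSpace (S X Y) := TopologicalSpace.generateFrom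
  {N | ∃ (p : X × Y) (O : Set (X × Y)) (W : Set ℝ), IsOpen O ∧ IsOpen W ∧
    N = {s | ∀ q ∈ closure (O ∩ cr p) ∩ cr p, s.1 q ∈ W}}

/-- the cross-uniform topology -/
@[reducible] def cru : TopologicalSpace (S X Y) where
  IsOpen U := ∀ s ∈ U, ∃ (F : Finset (X × Y)) (ε : ℝ), 0 < ε ∧
    {t : S X Y | ∀ p ∈ F, ∀ q ∈ cr p, |s.1 q - t.1 q| < ε} ⊆ U
  isOpen_univ := fun _ _ => ⟨∅, 1, one_pos, subset_univ _⟩
  isOpen_inter := by
    classical
    intro U V hU hV s hs
    obtain ⟨F, a, ha, h1⟩ := hU s hs.1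
    obtain ⟨G, b, hb, h2⟩ := hV s hs.2
    exact ⟨F ∪ G, min a b, lt_min ha hb, fun t ht =>
      ⟨h1 fun p hp q hq => (ht p (Finset.mem_union_left _ hp) q hq).trans_le (min_le_left _ _),
       h2 fun p hp q hq => (ht p (Finset.mem_union_right _ hp) q hq).trans_le (min_le_right _ _)⟩⟩
  isOpen_sUnion := fun _ h s ⟨U, hU, hs⟩ =>
    let ⟨F, a, ha, h1⟩ := h U hU s hs
    ⟨F, a, ha, h1.trans (subset_sUnion_of_mem hU)⟩

lemma ev_cru (q : X × Y) : Continuous[cru X Y, _] fun s : S X Y => s.1 q := by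
  refine continuous_def.2 fun W hW s hs => ?_
  obtain ⟨ε, hε, h⟩ := Metric.isOpen_iff.1 hW _ hs
  refine ⟨{q}, ε, hε, fun t ht => h ?_⟩
  rw [Metric.mem_ball, dist_comm, Real.dist_eq]
  exact ht q (Finset.mem_singleton_self _) q (Or.inl rfl)

lemma ev_cro [T1Space X] [T1Space Y] (q : X × Y) :
    Continuous[cro X Y, _] fun s : S X Y => s.1 q := by
  let _ := cro X Y
  refine continuous_def.2 fun W hW => isOpen_iff_forall_mem_open.2 fun s hs => ?_
  have c1 : IsClosed {r : X × Y | r.1 = q.1} := isClosed_singleton.preimage continuous_fst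
  have c2 : IsClosed {r : X × Y | r.2 = q.2} := isClosed_singleton.preimage continuous_snd
  have hc : ContinuousOn s.1 (cr q) := by
    refine ContinuousOn.union_of_isClosed (s := {r : X × Y | r.1 = q.1})
      (t := {r : X × Y | r.2 = q.2}) ?_ ?_ c1 c2
    · refine ((s.2.2 q.1).comp continuous_snd).continuousOn.congr fun r hr => ?_
      simp only [Function.comp]; rw [← show r.1 = q.1 from hr]
    · refine ((s.2.1 q.2).comp continuous_fst).continuousOn.congr fun r hr => ?_
      simp only [Function.comp]; rw [← show r.2 = q.2 from hr]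
  obtain ⟨Z, z1, z2, z3⟩ := exists_mem_nhds_isClosed_subset (hW.mem_nhds hs)
  obtain ⟨O, o1, o2⟩ := continuousOn_iff'.1 hc (interior Z) isOpen_interior
  refine ⟨_, ?_, TopologicalSpace.isOpen_generateFrom_of_mem ⟨q, O, W, o1, hW, rfl⟩, ?_⟩
  · intro t ht
    refine ht q ⟨subset_closure ?_, Or.inl rfl⟩
    rw [← o2]; exact ⟨mem_interior_iff_mem_nhds.2 z1, Or.inl rfl⟩
  · intro r hr
    have hcl : IsClosed (cr q ∩ s.1 ⁻¹' Z) := hc.preimage_isClosed_of_isClosed (c1.union c2) z2
    refine z3 (closure_minimal ?_ hcl hr.1).2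
    rw [← o2]; exact fun u hu => ⟨hu.2, interior_subset (s := Z) hu.1⟩
end

def K : Set (ℝ → ℝ) := {f | (∀ x, f x ∈ Icc (0 : ℝ) 1) ∧ ∀ x y, x ≠ y → f x * f y = 0}

lemma K_compact : IsCompact K := by
  refine (isCompact_univ_pi fun _ : ℝ => isCompact_Icc (a := (0 : ℝ)) (b := 1)).of_isClosed_subset
    ?_ fun f hf x _ => hf.1 x
  simp only [K, ofPred_and, ofPred_forall]
  exact (isClosed_iInter fun x => isClosed_Icc.preimage (continuous_apply x)).inter
    (isClosed_iInter fun x => isClosed_iInter fun y => isClosed_iInter fun _ =>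
      isClosed_eq (by fun_prop) continuous_const)

lemma K_baire {f : ℝ → ℝ} (hf : f ∈ K) : BaireOne f := by
  by_cases h : ∃ x, f x ≠ 0
  · obtain ⟨x, hx⟩ := h
    refine ⟨fun n t => f x * max 0 (1 - n * |t - x|), fun n => by fun_prop, fun t => ?_⟩
    by_cases e : t = x
    · subst e; simp
    · rw [(mul_eq_zero.1 (hf.2 t x e)).resolve_right hx]
      have hp : 0 < |t - x| := abs_pos.2 (sub_ne_zero.2 e)
      refine tendsto_const_nhds.congr' ?_
      filter_upwards [(tendsto_natCast_atTop_atTop.atTop_mul_const hp).eventually_ge_atTop 1]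
        with n hn
      rw [max_eq_left (by linarith), mul_zero]
  · push Not at h
    exact ⟨fun _ _ => 0, fun _ => continuous_const, fun t => by rw [h t]; exact tendsto_const_nhds⟩

lemma no_inj {D : Type} [Countable D] (Φ : K → D → ℝ) (hc : Continuous Φ) :
    ¬ Function.Injective Φ := by
  classical
  intro hi
  let z : K := ⟨0, fun _ => by simp, fun _ _ _ => by simp⟩
  let δ : ℝ → K := fun x => ⟨fun t => if t = x then 1 else 0, fun t => by
      dsimp only; split_ifs <;> simp,
    fun s t h => by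
      dsimp only
      by_cases h1 : s = x
      · rw [if_neg (fun h2 : t = x => h (h1.trans h2.symm)), mul_zero]
      · rw [if_neg h1, zero_mul]⟩
  have ht : Tendsto δ cofinite (𝓝 z) := by
    rw [tendsto_subtype_rng]
    refine tendsto_pi_nhds.2 fun t => tendsto_const_nhds.congr' ?_
    filter_upwards [(finite_singleton t).compl_mem_cofinite] with x hx
    exact (if_neg fun h : t = x => hx h.symm).symm
  have h1 := ((hc.tendsto z).comp ht).countable_compl_preimage_ker
  refine Cardinal.not_countable_real (Countable.mono ?_ h1)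
  intro x _ hx
  have h2 : Φ (δ x) = Φ z := by
    by_contra k
    exact hx {Φ (δ x)}ᶜ (isOpen_compl_singleton.mem_nhds fun e => k e.symm) rfl
  have := congrFun (congrArg Subtype.val (hi h2)) x
  simp [δ, z] at this

lemma main (X Y : Type) [TopologicalSpace X] [TopologicalSpace Y] [PolishSpace X] [PolishSpace Y]
    (τ : TopologicalSpace (S X Y)) (h : ∀ q, Continuous[τ, _] fun s : S X Y => s.1 q) :
    ¬ ∃ e : K → S X Y, @IsEmbedding _ _ _ τ e := by
  rintro ⟨e, he⟩
  obtain ⟨A, a1, a2⟩ := TopologicalSpace.exists_countable_dense X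
  obtain ⟨B, b1, b2⟩ := TopologicalSpace.exists_countable_dense Y
  have := a1.to_subtype
  have := b1.to_subtype
  refine no_inj (D := A × B) (fun k d => (e k).1 (d.1.1, d.2.1))
    (continuous_pi fun d => (h _).comp he.continuous) fun k l hkl => he.injective ?_
  refine Subtype.ext (funext fun ⟨x, y⟩ => ?_)
  refine congrFun (Continuous.ext_on a2 ((e k).2.1 y) ((e l).2.1 y) fun a ha => ?_) x
  exact congrFun (Continuous.ext_on b2 ((e k).2.2 a) ((e l).2.2 a) fun b hb =>
    congrFun hkl (⟨a, ha⟩, ⟨b, hb⟩)) y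

/-- A Rosenthal compact that embeds in no `S_cro (X × Y)` and no `S_cru (X × Y)`, `X, Y` Polish. -/
theorem result : ∃ (K : Type) (_ : TopologicalSpace K), Rosenthal K ∧
    ∀ (X Y : Type) [TopologicalSpace X] [TopologicalSpace Y] [PolishSpace X] [PolishSpace Y],
      (¬ ∃ e : K → S X Y, @IsEmbedding _ _ _ (cro X Y) e) ∧
        ¬ ∃ e : K → S X Y, @IsEmbedding _ _ _ (cru X Y) e :=
  ⟨K, inferInstance, ⟨isCompact_iff_compactSpace.1 K_compact, ℝ, inferInstance, inferInstance,
    Subtype.val, IsEmbedding.subtypeVal, fun k => K_baire k.2⟩, fun X Y _ _ _ _ =>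
    ⟨main X Y _ (ev_cro X Y), main X Y _ (ev_cru X Y)⟩⟩

end Pool.Agent.Results.MP_8a822d_gt.NoEmbedding
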